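import Pool.Agent.V11245.Filt.Meas

/-!
MP_aa1901_an, Q1: disproved. There is (in ZFC) a free filter on the natural numbers which is
not conglomerated and not generated by any statistical measure.
-/

namespace Pool.Agent.Results.MP_aa1901_an.NotConglomerated

open Pool.Agent.V11245.Filt

/-- There is a free filter on the naturals that is not conglomerated and is not the filter
generated by any statistical measure. -/
theorem result : ∃ F : Filter ℕ, IsFree F ∧ ¬ IsConglomerated F ∧
    ∀ μ : Set ℕ → ℝ, IsStatMeasure μ → ¬ GeneratedBy F μ := by
  obtain ⟨F, hF, hp, hμ⟩ := exists_poor_not_generated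
  exact ⟨F, hF, fun hc => hc.not_poor hp, hμ⟩

end Pool.Agent.Results.MP_aa1901_an.NotConglomerated
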